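import Mathlib
import Pool.Agent.V11270.GS.BothZ

set_option autoImplicit false

/-!
# Every linear form in consecutive unfolded zeta gaps lies on both sides of its mean

Assume the Riemann hypothesis.  For every `k` there are `c > 0` and `p > 0` such that for all large `N` and for
EVERY real `a_0, …, a_{k-1}` with `|a_j| ≥ 1` for some `j`, the form `a_0 δ_n + … + a_{k-1} δ_{n+k-1}` in the
unfolded gaps exceeds its mean `a_0 + … + a_{k-1}` by more than `c` for at least `p N` of the `n ≤ N`, and is
smaller than the mean by more than `c` for at least `p N` of the `n ≤ N`.  In other words the point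
`(1, …, 1)` and a neighbourhood of it have positive half-space depth with respect to the law of `k`
consecutive gaps.

Proof.  By the starting theorem `Pool.Agent.Y743.LR.gaps` the form stays away from its mean for a positive
proportion of the `n`, uniformly in `a`.  If it exceeded the mean by more than `c` only for few `n`, then the sums
of the form over long blocks would be much smaller than the mean for most `n`; but these sums telescope
up to a multiple of the number of zeros in the block, which is known by the law of large numbers.
-/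

open Filter

namespace Pool.Agent.Results.MP_7eacff_nt.BothSidesOfTheMean

/-- multiplicity of `s` as a zero of the Riemann zeta function (order of vanishing at `s`) -/
noncomputable def zmult (s : ℂ) : ℕ := analyticOrderNatAt riemannZeta s

/-- the number of nontrivial zeros of `ζ` with ordinate in `(0, t]`, with multiplicity -/
noncomputable def NZ (t : ℝ) : ℕ :=
  ∑ᶠ s ∈ {s : ℂ | riemannZeta s = 0 ∧ 0 < s.re ∧ s.re < 1 ∧ 0 < s.im ∧ s.im ≤ t}, zmult s

/-- for `n ≥ 1`: the `n`-th positive ordinate `γ n` of a nontrivial zero of `ζ`, the ordinates being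
listed in nondecreasing order and repeated according to multiplicity -/
noncomputable def γ (n : ℕ) : ℝ := sInf {t : ℝ | n ≤ NZ t}

/-- the unfolded consecutive gaps `δ_n = (γ_{n+1} - γ_n) / 2π · log (γ_n / 2π)` -/
noncomputable def δ (n : ℕ) : ℝ := (γ (n + 1) - γ n) / (2 * Real.pi) * Real.log (γ n / (2 * Real.pi))

/-- **Every linear form in consecutive unfolded gaps lies on both sides of its mean.** -/
theorem result (RH : RiemannHypothesis) (k : ℕ) :
    ∃ c : ℝ, 0 < c ∧ ∃ p : ℝ, 0 < p ∧ ∀ᶠ N : ℕ in atTop, ∀ a : Fin k → ℝ, (∃ j, 1 ≤ |a j|) →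
      p * N ≤ ({n : ℕ | 1 ≤ n ∧ n ≤ N ∧ ∑ j, a j + c < ∑ j, a j * δ (n + j)}.ncard : ℝ) ∧
      p * N ≤ ({n : ℕ | 1 ≤ n ∧ n ≤ N ∧ ∑ j, a j * δ (n + j) < ∑ j, a j - c}.ncard : ℝ) :=
  V11270.GS.both_zeta RH k

end Pool.Agent.Results.MP_7eacff_nt.BothSidesOfTheMean
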