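import Pool.Agent.V1173.UR.Lin

/-!
# Consecutive unfolded gaps satisfy no approximate linear relation

For every `k` there is `ε > 0` such that for all large `N`, all real `a 0, …, a (k - 1)` with
`|a j| ≥ 1` for some `j` and all real `b`, at least `ε N` of the indices `n ≤ N` satisfy
`|a 0 δ_n + … + a (k - 1) δ_{n+k-1} - b| ≥ ε`. No hypothesis on the zeros is used. In other words no
limit law of `k` consecutive gaps gives full mass to a hyperplane of `ℝ^k`, with a bound that is
uniform in the hyperplane, and the coefficients may depend on `N`.

The starting files contain the analogue for linear forms in consecutive ordinates under the Riemann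
hypothesis (`Pool.Agent.Y743.LR`). The new part is the proof without that hypothesis: the moments of
the gaps are replaced by their uniform integrability, which follows from the number variance
(unconditional, `TH850.UV`), and the contradiction (bounded fluctuations of the number of ordinates
in windows of `a` mean spacings, for a large `a`) comes from the central limit theorem for this
number (`Y743.CL`) instead of third moments.
-/

set_option autoImplicit false

open Filter

namespace Pool.Agent.Results.MP_7eacff_nt.LinearRelationsOfGaps

/-- multiplicity of `s` as a zero of the Riemann zeta function (order of vanishing at `s`) -/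
noncomputable def zmult (s : ℂ) : ℕ := analyticOrderNatAt riemannZeta s

/-- the number of nontrivial zeros of `ζ` with ordinate in `(0, t]`, with multiplicity -/
noncomputable def NZ (t : ℝ) : ℕ :=
  ∑ᶠ s ∈ {s : ℂ | riemannZeta s = 0 ∧ 0 < s.re ∧ s.re < 1 ∧ 0 < s.im ∧ s.im ≤ t}, zmult s

/-- for `n ≥ 1`: the `n`-th positive ordinate `γ n` of a nontrivial zero of `ζ`, the ordinates being
listed in nondecreasing order and repeated according to multiplicity -/
noncomputable def γ (n : ℕ) : ℝ := sInf {t : ℝ | n ≤ NZ t}

/-- the unfolded gap `δ_n = (γ_{n+1} - γ_n) log (γ_n / 2π) / 2π` -/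
noncomputable def δ (n : ℕ) : ℝ :=
  (γ (n + 1) - γ n) * Real.log (γ n / (2 * Real.pi)) / (2 * Real.pi)

/-- **Theorem** (unconditional). For every `k` there is `ε > 0` such that for all large `N`, for
every linear form in `k` consecutive unfolded gaps with a coefficient of modulus at least `1` and
every real `b`, the form differs from `b` by at least `ε` for at least `ε N` of the `n ≤ N`. -/
theorem result (k : ℕ) : ∃ ε : ℝ, 0 < ε ∧ ∀ᶠ N : ℕ in atTop,
    ∀ a : Fin k → ℝ, (∃ j, 1 ≤ |a j|) → ∀ b : ℝ,
      ε * N ≤ ({n : ℕ | 1 ≤ n ∧ n ≤ N ∧ ε ≤ |∑ j, a j * δ (n + j) - b|}.ncard : ℝ) :=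
  Pool.Agent.V1173.UR.gapsU k

end Pool.Agent.Results.MP_7eacff_nt.LinearRelationsOfGaps
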