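import Pool.Agent.Results.MP_7eacff_nt.DistributionFunction
import Pool.Agent.Results.MP_7eacff_nt.CentralMass
import Pool.Agent.Results.MP_7eacff_nt.SmallGaps
import Pool.Agent.Results.MP_7eacff_nt.UniformRSums
import Pool.Agent.Results.MP_7eacff_nt.LargeRSums
import Pool.Agent.Results.MP_7eacff_nt.SmallRSums
import Pool.Agent.V11285.SP

/-!
# The spacings of zeta zeros along the sequences `⌊α n ^ c⌋`

For every `c > 1` there is a set `E` of Hausdorff dimension less than `1` such that for all `α > 0` outside `E` the unfolded gaps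
`δ_m`, `m = ⌊α n ^ c⌋`, have the following properties. (1) The GUE hypothesis (Q1) holds if and only if it holds along the
sequence; the same is true for any other density. (2), (3) On the Riemann hypothesis the bounds for the distribution function, the
small gaps and the small and large sums of consecutive gaps hold along the sequence.
-/

set_option autoImplicit false

open Filter Set Topology MeasureTheory

namespace Pool.Agent.Results.MP_7eacff_nt.SparseSequences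

/-- multiplicity of `s` as a zero of the Riemann zeta function (order of vanishing at `s`) -/
noncomputable def zmult (s : ℂ) : ℕ := analyticOrderNatAt riemannZeta s

/-- the number of nontrivial zeros of `ζ` with ordinate in `(0, t]`, with multiplicity -/
noncomputable def NZ (t : ℝ) : ℕ :=
  ∑ᶠ s ∈ {s : ℂ | riemannZeta s = 0 ∧ 0 < s.re ∧ s.re < 1 ∧ 0 < s.im ∧ s.im ≤ t}, zmult s

/-- for `n ≥ 1`: the `n`-th positive ordinate `γ n` of a nontrivial zero of `ζ`, the ordinates being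
listed in nondecreasing order and repeated according to multiplicity -/
noncomputable def γ (n : ℕ) : ℝ := sInf {t : ℝ | n ≤ NZ t}

/-- the unfolded consecutive gaps `δ_n = (γ_{n+1} - γ_n) / 2π · log (γ_n / 2π)` -/
noncomputable def δ (n : ℕ) : ℝ := (γ (n + 1) - γ n) / (2 * Real.pi) * Real.log (γ n / (2 * Real.pi))

/-- the sum of the `r` consecutive gaps `δ_m, …, δ_{m+r-1}` -/
noncomputable def S (r m : ℕ) : ℝ := ∑ i ∈ Finset.range r, δ (m + i)

/-- the sequence `⌊α n ^ c⌋` -/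
noncomputable def idx (α c : ℝ) (n : ℕ) : ℕ := ⌊α * (n : ℝ) ^ c⌋₊

/-- the proportion of the `1 ≤ n ≤ N` such that the index `f n` has the property `Q` -/
noncomputable def Pr (f : ℕ → ℕ) (N : ℕ) (Q : ℕ → Prop) : ℝ :=
  (1 / N : ℝ) * ({n : ℕ | 1 ≤ n ∧ n ≤ N ∧ Q (f n)}.ncard : ℝ)

/-- the proportion of the `1 ≤ n ≤ N` with `δ_{f n} ∈ I` -/
noncomputable def P (f : ℕ → ℕ) (N : ℕ) (I : Set ℝ) : ℝ := Pr f N fun m => δ m ∈ I

/-- the property `Q` holds for the indices `f n` for a positive proportion of the `n` -/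
def Pos (f : ℕ → ℕ) (Q : ℕ → Prop) : Prop := ∃ p : ℝ, 0 < p ∧ ∀ᶠ N : ℕ in atTop, p ≤ Pr f N Q

/-- The gaps with the indices `f n` are distributed with density `p`. For `f n = n` and the Gaudin density `p` this is Q1. -/
def Law (p : ℝ → ℝ) (f : ℕ → ℕ) : Prop :=
  ∀ a b : ℝ, 0 < a → a < b → Tendsto (fun N : ℕ => P f N (Icc a b)) atTop (𝓝 (∫ s in a..b, p s))

lemma fin (f : ℕ → ℕ) (N : ℕ) (Q : ℕ → Prop) : {n : ℕ | 1 ≤ n ∧ n ≤ N ∧ Q (f n)}.Finite :=
  (Set.finite_Iic N).subset (fun n hn => hn.2.1)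

lemma Pr_mono (f : ℕ → ℕ) (N : ℕ) {Q R : ℕ → Prop} (h : ∀ m, Q m → R m) : Pr f N Q ≤ Pr f N R := by
  unfold Pr
  apply mul_le_mul_of_nonneg_left _ (by positivity)
  have hsub : {n : ℕ | 1 ≤ n ∧ n ≤ N ∧ Q (f n)} ⊆ {n : ℕ | 1 ≤ n ∧ n ≤ N ∧ R (f n)} :=
    fun n hn => ⟨hn.1, hn.2.1, h _ hn.2.2⟩
  exact_mod_cast Set.ncard_le_ncard hsub (fin f N R)

lemma P_mono (f : ℕ → ℕ) (N : ℕ) {I J : Set ℝ} (h : I ⊆ J) : P f N I ≤ P f N J :=
  Pr_mono f N fun _ hm => h hm

open Classical in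
lemma Pr_id (N : ℕ) (Q : ℕ → Prop) :
    Pr (fun n => n) N Q = (((Finset.Ioc 0 N).filter (fun t => t ∈ {m | Q m})).card : ℝ) / N := by
  unfold Pr
  have : {n : ℕ | 1 ≤ n ∧ n ≤ N ∧ Q n} = ↑((Finset.Ioc 0 N).filter (fun t => t ∈ {m | Q m})) := by
    ext n
    simp only [Set.mem_ofPred_eq, Finset.coe_filter, Finset.mem_Ioc]
    tauto
  rw [this, Set.ncard_coe_finset]
  ring

open Classical in
lemma Pr_idx (α c : ℝ) (N : ℕ) (Q : ℕ → Prop) :
    Pr (idx α c) N Q = (((Finset.Icc 1 N).filter (fun n : ℕ => ⌊α * (n : ℝ) ^ c⌋₊ ∈ {m | Q m})).card : ℝ) / N := by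
  unfold Pr
  have : {n : ℕ | 1 ≤ n ∧ n ≤ N ∧ Q (idx α c n)} =
      ↑((Finset.Icc 1 N).filter (fun n : ℕ => ⌊α * (n : ℝ) ^ c⌋₊ ∈ {m | Q m})) := by
    ext n
    simp only [Set.mem_ofPred_eq, Finset.coe_filter, Finset.mem_Icc, idx]
    tauto
  rw [this, Set.ncard_coe_finset]
  ring

/-- what is known for the sets of a countable family -/
theorem core (c : ℝ) (hc : 1 < c) (F : Set (Set ℕ)) (hF : F.Countable) :
    ∃ E : Set ℝ, dimH E < 1 ∧ ∀ α : ℝ, 0 < α → α ∉ E → ∀ Q : ℕ → Prop, {m | Q m} ∈ F →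
      (∀ θ ε : ℝ, 0 < ε → (∀ᶠ N : ℕ in atTop, Pr (fun n => n) N Q ≤ θ) →
        ∀ᶠ N : ℕ in atTop, Pr (idx α c) N Q ≤ θ + ε) ∧
      (∀ θ ε : ℝ, 0 < ε → (∀ᶠ N : ℕ in atTop, θ ≤ Pr (fun n => n) N Q) →
        ∀ᶠ N : ℕ in atTop, θ - ε ≤ Pr (idx α c) N Q) ∧
      ∀ L : ℝ, Tendsto (fun N : ℕ => Pr (fun n => n) N Q) atTop (𝓝 L) ↔
        Tendsto (fun N : ℕ => Pr (idx α c) N Q) atTop (𝓝 L) := by
  classical
  have : Countable F := hF.to_subtype
  obtain ⟨E, hE, h⟩ := Pool.Agent.V11285.SP.equi c hc (fun k : F => (k : Set ℕ))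
  refine ⟨E, hE, fun α hα hαE Q hQ => ?_⟩
  obtain ⟨h1, h2⟩ := h α hα hαE ⟨_, hQ⟩
  refine ⟨fun θ ε hε hev => ?_, fun θ ε hε hev => ?_, fun L => ?_⟩
  · obtain ⟨X0, hX0⟩ := hev.exists_forall_of_atTop
    obtain ⟨N0, hN0⟩ := (h1 θ ε hε).1 ⟨max X0 1, fun X hX => by
      have g := hX0 X ((le_max_left _ _).trans hX)
      have hXp : (0 : ℝ) < X := by exact_mod_cast ((le_max_right _ _).trans hX)
      rw [Pr_id, div_le_iff₀ hXp] at g
      exact g⟩
    filter_upwards [eventually_ge_atTop (max N0 1)] with N hN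
    have hNp : (0 : ℝ) < N := by exact_mod_cast ((le_max_right _ _).trans hN)
    rw [Pr_idx, div_le_iff₀ hNp]
    exact hN0 N ((le_max_left _ _).trans hN)
  · obtain ⟨X0, hX0⟩ := hev.exists_forall_of_atTop
    obtain ⟨N0, hN0⟩ := (h1 θ ε hε).2 ⟨max X0 1, fun X hX => by
      have g := hX0 X ((le_max_left _ _).trans hX)
      have hXp : (0 : ℝ) < X := by exact_mod_cast ((le_max_right _ _).trans hX)
      rw [Pr_id, le_div_iff₀ hXp] at g
      exact g⟩
    filter_upwards [eventually_ge_atTop (max N0 1)] with N hN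
    have hNp : (0 : ℝ) < N := by exact_mod_cast ((le_max_right _ _).trans hN)
    rw [Pr_idx, le_div_iff₀ hNp]
    exact hN0 N ((le_max_left _ _).trans hN)
  · simp only [Pr_id, Pr_idx]
    exact h2 L

/-- the law for rational intervals suffices -/
lemma law_of_rat {p : ℝ → ℝ} (hp : ∀ a b : ℝ, 0 < a → a < b → IntervalIntegrable p volume a b) (f : ℕ → ℕ)
    (h : ∀ a b : ℚ, 0 < a → a < b →
      Tendsto (fun N : ℕ => P f N (Icc (a : ℝ) b)) atTop (𝓝 (∫ s in (a : ℝ)..b, p s))) : Law p f := by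
  intro a b ha hab
  -- the integral as a function of the end points
  have hint : ∀ x y : ℝ, 0 < x → 0 < y → IntervalIntegrable p volume x y := by
    intro x y hx hy
    rcases lt_trichotomy x y with h1 | h1 | h1
    · exact hp x y hx h1
    · rw [h1]
    · exact (hp y x hy h1).symm
  set G : ℝ → ℝ := fun x => ∫ s in (a / 2)..x, p s with hG
  have hsub : ∀ x y : ℝ, 0 < x → 0 < y → ∫ s in x..y, p s = G y - G x := by
    intro x y hx hy
    simp only [hG]
    rw [intervalIntegral.integral_interval_sub_left (hint _ _ (by positivity) hy) (hint _ _ (by positivity) hx)]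
  have hcont : ContinuousOn G (uIcc (a / 2) (b + 1)) :=
    intervalIntegral.continuousOn_primitive_interval' (hint _ _ (by positivity) (by linarith)) left_mem_uIcc
  have hat : ∀ x : ℝ, a / 2 < x → x < b + 1 → ContinuousAt G x := by
    intro x h1 h2
    apply hcont.continuousAt
    rw [uIcc_of_le (by linarith)]
    exact Icc_mem_nhds h1 h2
  have hGa := hat a (by linarith) (by linarith)
  have hGb := hat b (by linarith) (by linarith)
  rw [Metric.tendsto_atTop]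
  intro ε hε
  obtain ⟨η₁, hη₁, h₁⟩ := Metric.continuousAt_iff.1 hGa (ε / 3) (by positivity)
  obtain ⟨η₂, hη₂, h₂⟩ := Metric.continuousAt_iff.1 hGb (ε / 3) (by positivity)
  obtain ⟨a₁, ha₁, ha₁'⟩ := exists_rat_btwn (show max (a / 2) (a - η₁) < a from max_lt (by linarith) (by linarith))
  obtain ⟨a₂, ha₂, ha₂'⟩ := exists_rat_btwn (show a < min (a + η₁) ((a + b) / 2) from lt_min (by linarith) (by linarith))
  obtain ⟨b₂, hb₂, hb₂'⟩ := exists_rat_btwn (show max (b - η₂) ((a + b) / 2) < b from max_lt (by linarith) (by linarith))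
  obtain ⟨b₁, hb₁, hb₁'⟩ := exists_rat_btwn (show b < b + η₂ by linarith)
  rw [max_lt_iff] at ha₁ hb₂
  rw [lt_min_iff] at ha₂'
  have e1 : dist (G a₁) (G a) < ε / 3 := h₁ (by rw [Real.dist_eq, abs_lt]; constructor <;> linarith [ha₁.2])
  have e2 : dist (G a₂) (G a) < ε / 3 := h₁ (by rw [Real.dist_eq, abs_lt]; constructor <;> linarith [ha₂'.1])
  have e3 : dist (G b₂) (G b) < ε / 3 := h₂ (by rw [Real.dist_eq, abs_lt]; constructor <;> linarith [hb₂.1])
  have e4 : dist (G b₁) (G b) < ε / 3 := h₂ (by rw [Real.dist_eq, abs_lt]; constructor <;> linarith)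
  rw [Real.dist_eq, abs_lt] at e1 e2 e3 e4
  have p1 : (0 : ℝ) < a₁ := by linarith [ha₁.1]
  have p2 : (0 : ℝ) < a₂ := by linarith
  have p3 : (0 : ℝ) < b₂ := by linarith [hb₂.2]
  have p4 : (0 : ℝ) < b₁ := by linarith
  have q1 := h a₁ b₁ (by exact_mod_cast p1) (by exact_mod_cast (show (a₁ : ℝ) < b₁ by linarith))
  have q2 := h a₂ b₂ (by exact_mod_cast p2) (by exact_mod_cast (show (a₂ : ℝ) < b₂ by linarith [ha₂'.2, hb₂.2]))
  rw [hsub _ _ p1 p4] at q1
  rw [hsub _ _ p2 p3] at q2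
  have q1' := q1.eventually (eventually_lt_nhds (show G b₁ - G a₁ < G b₁ - G a₁ + ε / 3 by linarith))
  have q2' := q2.eventually (eventually_gt_nhds (show G b₂ - G a₂ - ε / 3 < G b₂ - G a₂ by linarith))
  obtain ⟨N, hN⟩ := (q1'.and q2').exists_forall_of_atTop
  refine ⟨N, fun n hn => ?_⟩
  obtain ⟨r1, r2⟩ := hN n hn
  have m1 : P f n (Icc a b) ≤ P f n (Icc (a₁ : ℝ) b₁) := P_mono f n (Icc_subset_Icc ha₁'.le hb₁.le)
  have m2 : P f n (Icc (a₂ : ℝ) b₂) ≤ P f n (Icc a b) := P_mono f n (Icc_subset_Icc ha₂.le hb₂'.le)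
  rw [hsub a b ha (by linarith), Real.dist_eq, abs_lt]
  constructor <;> linarith

/-- **The spacings of zeta zeros along `⌊α n ^ c⌋`.** Let `c > 1`. For all `α > 0` outside a set `E` of Hausdorff dimension less
than `1`:

(1) for every density `p` the gaps `δ_n` are distributed with density `p` if and only if the gaps `δ_m`, `m = ⌊α n ^ c⌋`, are;

(2) on the Riemann hypothesis: bounds for the distribution function of the gaps `δ_m`, `m = ⌊α n ^ c⌋`;

(3) on the Riemann hypothesis: for every `β > 1 / 2` a positive proportion of the gaps `δ_m` is smaller than `β`; and the sums of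
`r` consecutive gaps from `δ_m` on are larger than `r + (9 / 5) √r`, smaller than `r - √r + 13 / 25`, and for large `r` larger than
`r + (2 - ε) √r` and smaller than `r - (2 - ε) √r`, each for a positive proportion of the `n`. -/
theorem result (c : ℝ) (hc : 1 < c) :
    ∃ E : Set ℝ, dimH E < 1 ∧ ∀ α : ℝ, 0 < α → α ∉ E →
      (∀ p : ℝ → ℝ, (∀ a b : ℝ, 0 < a → a < b → IntervalIntegrable p volume a b) →
        (Law p (fun n => n) ↔ Law p (idx α c))) ∧
      (RiemannHypothesis → ∀ ε : ℝ, 0 < ε → ∀ᶠ N : ℕ in atTop,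
        P (idx α c) N (Iic (1/10)) ≤ 0.1703 + ε ∧
        P (idx α c) N (Iic (1/4)) ≤ 0.2001 + ε ∧
        P (idx α c) N (Iic (1/2)) ≤ 0.3534 + ε ∧
        P (idx α c) N (Iic (3/5)) ≤ 0.4811 + ε ∧
        P (idx α c) N (Iic (3/4)) ≤ 0.7486 + ε ∧
        0.3016 - ε ≤ P (idx α c) N (Iio (5/4)) ∧
        0.5905 - ε ≤ P (idx α c) N (Iio (3/2)) ∧
        0.7366 - ε ≤ P (idx α c) N (Iio (7/4)) ∧
        0.8128 - ε ≤ P (idx α c) N (Iio (2)) ∧
        0.8847 - ε ≤ P (idx α c) N (Iio (5/2)) ∧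
        0.9173 - ε ≤ P (idx α c) N (Iio (3)) ∧
        0.0548 - ε ≤ P (idx α c) N (Ioo (3/5) (7/5)) ∧
        0.3471 - ε ≤ P (idx α c) N (Ioo (1/2) (3/2)) ∧
        0.5011 - ε ≤ P (idx α c) N (Ioo (2/5) (8/5)) ∧
        0.5650 - ε ≤ P (idx α c) N (Ioo (1/3) (5/3)) ∧
        0.6789 - ε ≤ P (idx α c) N (Ioo (1/4) (2)) ∧
        0.7387 - ε ≤ P (idx α c) N (Ioo (1/5) (5/2)) ∧
        0.7924 - ε ≤ P (idx α c) N (Ioo (1/10) (4))) ∧
      (RiemannHypothesis →
        (∀ β : ℝ, 1 / 2 < β → Pos (idx α c) fun m => δ m < β) ∧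
        (∀ r : ℕ, 1 ≤ r → Pos (idx α c) (fun m => r + 9 / 5 * Real.sqrt r < S r m) ∧
          Pos (idx α c) (fun m => S r m < r - Real.sqrt r + 13 / 25)) ∧
        ∀ ε : ℝ, 0 < ε → ∃ r₀ : ℕ, ∀ r : ℕ, r₀ ≤ r →
          Pos (idx α c) (fun m => r + (2 - ε) * Real.sqrt r < S r m) ∧
          Pos (idx α c) (fun m => S r m < r - (2 - ε) * Real.sqrt r)) := by
  set F : Set (Set ℕ) :=
    (range fun q : ℚ × ℚ => {m | δ m ∈ Icc (q.1 : ℝ) q.2}) ∪ (range fun q : ℚ => {m | δ m ∈ Iic (q : ℝ)}) ∪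
    (range fun q : ℚ => {m | δ m ∈ Iio (q : ℝ)}) ∪ (range fun q : ℚ × ℚ => {m | δ m ∈ Ioo (q.1 : ℝ) q.2}) ∪
    (range fun r : ℕ => {m | r + 9 / 5 * Real.sqrt r < S r m}) ∪
    (range fun r : ℕ => {m | S r m < r - Real.sqrt r + 13 / 25}) ∪
    (range fun q : ℕ × ℚ => {m | q.1 + (2 - (q.2 : ℝ)) * Real.sqrt q.1 < S q.1 m}) ∪
    (range fun q : ℕ × ℚ => {m | S q.1 m < q.1 - (2 - (q.2 : ℝ)) * Real.sqrt q.1}) with hF
  have hFc : F.Countable := by
    rw [hF]
    simp only [Set.countable_union]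
    exact ⟨⟨⟨⟨⟨⟨⟨countable_range _, countable_range _⟩, countable_range _⟩, countable_range _⟩, countable_range _⟩,
      countable_range _⟩, countable_range _⟩, countable_range _⟩
  have f1 : ∀ a b : ℚ, {m | δ m ∈ Icc (a : ℝ) b} ∈ F := fun a b => by
    rw [hF]; simp only [Set.mem_union]; exact Or.inl (Or.inl (Or.inl (Or.inl (Or.inl (Or.inl (Or.inl ⟨(a, b), rfl⟩))))))
  have f2 : ∀ a : ℚ, {m | δ m ∈ Iic (a : ℝ)} ∈ F := fun a => by
    rw [hF]; simp only [Set.mem_union]; exact Or.inl (Or.inl (Or.inl (Or.inl (Or.inl (Or.inl (Or.inr ⟨a, rfl⟩))))))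
  have f3 : ∀ a : ℚ, {m | δ m ∈ Iio (a : ℝ)} ∈ F := fun a => by
    rw [hF]; simp only [Set.mem_union]; exact Or.inl (Or.inl (Or.inl (Or.inl (Or.inl (Or.inr ⟨a, rfl⟩)))))
  have f4 : ∀ a b : ℚ, {m | δ m ∈ Ioo (a : ℝ) b} ∈ F := fun a b => by
    rw [hF]; simp only [Set.mem_union]; exact Or.inl (Or.inl (Or.inl (Or.inl (Or.inr ⟨(a, b), rfl⟩))))
  have f5 : ∀ r : ℕ, {m | r + 9 / 5 * Real.sqrt r < S r m} ∈ F := fun r => by
    rw [hF]; simp only [Set.mem_union]; exact Or.inl (Or.inl (Or.inl (Or.inr ⟨r, rfl⟩)))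
  have f6 : ∀ r : ℕ, {m | S r m < r - Real.sqrt r + 13 / 25} ∈ F := fun r => by
    rw [hF]; simp only [Set.mem_union]; exact Or.inl (Or.inl (Or.inr ⟨r, rfl⟩))
  have f7 : ∀ (r : ℕ) (q : ℚ), {m | r + (2 - (q : ℝ)) * Real.sqrt r < S r m} ∈ F := fun r q => by
    rw [hF]; simp only [Set.mem_union]; exact Or.inl (Or.inr ⟨(r, q), rfl⟩)
  have f8 : ∀ (r : ℕ) (q : ℚ), {m | S r m < r - (2 - (q : ℝ)) * Real.sqrt r} ∈ F := fun r q => by
    rw [hF]; simp only [Set.mem_union]; exact Or.inr ⟨(r, q), rfl⟩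
  clear_value F
  obtain ⟨E, hE, h⟩ := core c hc F hFc
  refine ⟨E, hE, fun α hα hαE => ?_⟩
  have hh := h α hα hαE
  refine ⟨fun p hp => ?_, fun RH ε hε => ?_, fun RH => ?_⟩
  · constructor
    · intro hL
      exact law_of_rat hp _ fun a b ha hab =>
        ((hh _ (f1 a b)).2.2 _).1 (hL a b (by exact_mod_cast ha) (by exact_mod_cast hab))
    · intro hL
      exact law_of_rat hp _ fun a b ha hab =>
        ((hh _ (f1 a b)).2.2 _).2 (hL a b (by exact_mod_cast ha) (by exact_mod_cast hab))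
  · have hD := DistributionFunction.result RH
    have hM := CentralMass.result RH
    -- the three kinds of bounds
    have up : ∀ (a : ℚ) (θ : ℝ), (∀ᶠ N : ℕ in atTop, DistributionFunction.P N (Iic (a : ℝ)) ≤ θ) →
        ∀ᶠ N : ℕ in atTop, P (idx α c) N (Iic (a : ℝ)) ≤ θ + ε := fun a θ g => (hh _ (f2 a)).1 θ ε hε g
    have lo : ∀ (a : ℚ) (θ : ℝ), (∀ᶠ N : ℕ in atTop, θ ≤ DistributionFunction.P N (Iio (a : ℝ))) →
        ∀ᶠ N : ℕ in atTop, θ - ε ≤ P (idx α c) N (Iio (a : ℝ)) := fun a θ g => (hh _ (f3 a)).2.1 θ ε hε g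
    have mid : ∀ (a b : ℚ) (θ : ℝ), (∀ᶠ N : ℕ in atTop, θ ≤ CentralMass.P N (Ioo (a : ℝ) b)) →
        ∀ᶠ N : ℕ in atTop, θ - ε ≤ P (idx α c) N (Ioo (a : ℝ) b) := fun a b θ g => (hh _ (f4 a b)).2.1 θ ε hε g
    have t1 := up (1/10) 0.1703 (by push_cast; exact hD.mono fun N g => g.1)
    have t2 := up (1/4) 0.2001 (by push_cast; exact hD.mono fun N g => g.2.1)
    have t3 := up (1/2) 0.3534 (by push_cast; exact hD.mono fun N g => g.2.2.1)
    have t4 := up (3/5) 0.4811 (by push_cast; exact hD.mono fun N g => g.2.2.2.1)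
    have t5 := up (3/4) 0.7486 (by push_cast; exact hD.mono fun N g => g.2.2.2.2.1)
    have t6 := lo (5/4) 0.3016 (by push_cast; exact hD.mono fun N g => g.2.2.2.2.2.1)
    have t8 := lo (3/2) 0.5905 (by push_cast; exact hD.mono fun N g => g.2.2.2.2.2.2.2.1)
    have t9 := lo (7/4) 0.7366 (by push_cast; exact hD.mono fun N g => g.2.2.2.2.2.2.2.2.1)
    have t10 := lo 2 0.8128 (by push_cast; exact hD.mono fun N g => g.2.2.2.2.2.2.2.2.2.1)
    have t11 := lo (5/2) 0.8847 (by push_cast; exact hD.mono fun N g => g.2.2.2.2.2.2.2.2.2.2.1)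
    have t12 := lo 3 0.9173 (by push_cast; exact hD.mono fun N g => g.2.2.2.2.2.2.2.2.2.2.2)
    have s1 := mid (3/5) (7/5) 0.0548 (by push_cast; exact hM.mono fun N g => g.1)
    have s2 := mid (1/2) (3/2) 0.3471 (by push_cast; exact hM.mono fun N g => g.2.1)
    have s3 := mid (2/5) (8/5) 0.5011 (by push_cast; exact hM.mono fun N g => g.2.2.1)
    have s4 := mid (1/3) (5/3) 0.5650 (by push_cast; exact hM.mono fun N g => g.2.2.2.1)
    have s5 := mid (1/4) 2 0.6789 (by push_cast; exact hM.mono fun N g => g.2.2.2.2.1)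
    have s6 := mid (1/5) (5/2) 0.7387 (by push_cast; exact hM.mono fun N g => g.2.2.2.2.2.1)
    have s7 := mid (1/10) 4 0.7924 (by push_cast; exact hM.mono fun N g => g.2.2.2.2.2.2)
    push_cast at t1 t2 t3 t4 t5 t6 t8 t9 t10 t11 t12 s1 s2 s3 s4 s5 s6 s7
    filter_upwards [t1, t2, t3, t4, t5, t6, t8, t9, t10, t11, t12, s1, s2, s3, s4, s5, s6, s7]
      with N u1 u2 u3 u4 u5 u6 u8 u9 u10 u11 u12 v1 v2 v3 v4 v5 v6 v7
    exact ⟨u1, u2, u3, u4, u5, u6, u8, u9, u10, u11, u12, v1, v2, v3, v4, v5, v6, v7⟩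
  · -- positive proportions
    have pos : ∀ Q : ℕ → Prop, {m | Q m} ∈ F → Pos (fun n => n) Q → Pos (idx α c) Q := by
      rintro Q hQ ⟨p, hp, g⟩
      refine ⟨p / 2, by positivity, ?_⟩
      have := (hh Q hQ).2.1 p (p / 2) (by positivity) g
      filter_upwards [this] with N hN
      linarith
    have mono : ∀ Q R : ℕ → Prop, (∀ m, Q m → R m) → Pos (idx α c) Q → Pos (idx α c) R := by
      rintro Q R hQR ⟨p, hp, g⟩
      exact ⟨p, hp, g.mono fun N hN => hN.trans (Pr_mono _ N hQR)⟩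
    refine ⟨fun β hβ => ?_, fun r hr => ⟨?_, ?_⟩, fun ε hε => ?_⟩
    · obtain ⟨q, hq1, hq2⟩ := exists_rat_btwn hβ
      have h1 : Pos (fun n => n) fun m => δ m < (q : ℝ) := SmallGaps.result RH q hq1
      exact mono _ _ (fun m hm => lt_trans hm hq2) (pos _ (f3 q) h1)
    · exact pos _ (f5 r) (UniformRSums.result RH r hr).1
    · exact pos _ (f6 r) (UniformRSums.result RH r hr).2
    · obtain ⟨q, hq1, hq2⟩ := exists_rat_btwn hε
      obtain ⟨r1, h1⟩ := LargeRSums.result RH q hq1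
      obtain ⟨r2, h2⟩ := SmallRSums.result RH q hq1
      refine ⟨max r1 r2, fun r hr => ⟨?_, ?_⟩⟩
      · have g1 := pos _ (f7 r q) (h1 r ((le_max_left _ _).trans hr))
        refine mono _ _ (fun m hm => lt_of_le_of_lt ?_ hm) g1
        have := Real.sqrt_nonneg (r : ℝ)
        nlinarith
      · have g1 := pos _ (f8 r q) (h2 r ((le_max_right _ _).trans hr))
        refine mono _ _ (fun m hm => lt_of_lt_of_le hm ?_) g1
        have := Real.sqrt_nonneg (r : ℝ)
        nlinarith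

end Pool.Agent.Results.MP_7eacff_nt.SparseSequences
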