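import Pool.Agent.V1161.ZD.Dense

set_option autoImplicit false

/-!
# The IP Szemeredi theorem in dense sets of zeros, and for words of gaps

No hypothesis is assumed.  Every set `S` of at least `δ (T / 2π) log T` ordinates in `(0, T]` contains, for arbitrary
real numbers `g i j` (`i < r`, `j < k`), a positive proportion of ordinates `t` with elements of `S` within `κ` mean
spacings of all `t + ∑_{i ∈ J} g i j`, `j < k`, for a common nonempty set `J` of indices; `r` and the proportion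
depend only on `k`, `δ`, `κ`.  In particular (`S`: the places of the gaps) every set of words of consecutive
normalised gaps that has positive frequency recurs in homothetic copies of all finite patterns.

Proof.  Second moments of the number of zeros in windows of the length of the mean spacing
(`Pool.Agent.Y750.OM.cntmom` of the starting library) show that the windows around the elements of `S` cover a
positive proportion of `(0, T]`; then the density Hales-Jewett theorem (`V11270.HP.real_line`).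
-/

open Filter Topology MeasureTheory

namespace Pool.Agent.Results.MP_7eacff_nt.SzemerediForGaps

/-- `g` is the ordinate of a nontrivial zero of zeta -/
def IsOrdinate (g : ℝ) : Prop := ∃ s : ℂ, riemannZeta s = 0 ∧ 0 < s.re ∧ s.re < 1 ∧ s.im = g

/-- the ordinates in `(0, T]` -/
def ordinates (T : ℝ) : Set ℝ := {g : ℝ | (0 < g ∧ g ≤ T) ∧ IsOrdinate g}

/-- the asymptotic number `(T / 2π) log T` of the zeros with ordinate in `(0, T]` -/
noncomputable def N₀ (T : ℝ) : ℝ := T / (2 * Real.pi) * Real.log T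

/-- the mean spacing `2π / log T` -/
noncomputable def spacing (T : ℝ) : ℝ := 2 * Real.pi / Real.log T

/-- the elements `t` of `S` such that for every `j` some element of `S` is within `κ` mean spacings of
`t + v j` -/
def patterns {k : ℕ} (T κ : ℝ) (S : Set ℝ) (v : Fin k → ℝ) : Set ℝ :=
  {t : ℝ | t ∈ S ∧ ∀ j, ∃ u ∈ S, |u - (t + v j)| < κ * spacing T}

/-- the next ordinate -/
noncomputable def next (g : ℝ) : ℝ := sInf {g' : ℝ | g < g' ∧ IsOrdinate g'}

/-- the unfolded gap between the ordinate `g` and the next one -/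
noncomputable def gap (g : ℝ) : ℝ := (next g - g) / (2 * Real.pi) * Real.log (g / (2 * Real.pi))

/-- the ordinates in `(0, T]` for which the word of the following `l` unfolded gaps is in `E` -/
def words (l : ℕ) (T : ℝ) (E : Set (Fin l → ℝ)) : Set ℝ :=
  {g : ℝ | g ∈ ordinates T ∧ (fun i : Fin l => gap (next^[(i : ℕ)] g)) ∈ E}

open V1161.ZD

lemma ordinates_eq (T : ℝ) : ordinates T = (ords T : Set ℝ) := by
  ext g
  rw [Finset.mem_coe, mem_ords]
  rfl

/-- the set of the ordinates in `(0, T]` is finite -/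
theorem ordinates_finite (T : ℝ) : (ordinates T).Finite := by
  rw [ordinates_eq]
  exact Finset.finite_toSet _

lemma dense_sets (k : ℕ) (δ κ : ℝ) (hδ : 0 < δ) (hκ : 0 < κ) : ∃ (r : ℕ) (η T₀ : ℝ), 0 < η ∧
    10 ≤ T₀ ∧ ∀ T : ℝ, T₀ ≤ T → ∀ S : Set ℝ, S ⊆ ordinates T → δ * N₀ T ≤ S.ncard →
      ∀ g : Fin r → Fin k → ℝ, (∀ j, ∑ i, |g i j| ≤ T) →
      ∃ J : Finset (Fin r), J.Nonempty ∧
        η * N₀ T ≤ (patterns T κ S (fun j => ∑ i ∈ J, g i j)).ncard := by
  classical
  obtain ⟨r, η, T₀, hη, hT₀, h⟩ := ip_main k δ κ hδ hκ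
  refine ⟨r, η, T₀, hη, hT₀, fun T hT S hS hcard g hg => ?_⟩
  have hfin : S.Finite := (ordinates_finite T).subset hS
  obtain ⟨S', hS'⟩ : ∃ S' : Finset ℝ, S' = hfin.toFinset := ⟨_, rfl⟩
  have hmem : ∀ t, t ∈ S' ↔ t ∈ S := fun t => by rw [hS', Set.Finite.mem_toFinset]
  have hS'o : S' ⊆ ords T := by
    intro t ht
    have := hS ((hmem t).1 ht)
    rw [ordinates_eq] at this
    exact this
  obtain ⟨J, hJ, h1⟩ := h T hT S' hS'o (by
    rw [hS', ← Set.ncard_eq_toFinset_card S hfin]
    exact hcard) g hg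
  refine ⟨J, hJ, h1.trans (le_of_eq ?_)⟩
  rw [← Set.ncard_coe_finset]
  congr 2
  ext t
  unfold patterns spacing
  rw [Finset.coe_filter, Set.mem_ofPred_eq, Set.mem_ofPred_eq, hmem]
  refine and_congr_right fun _ => forall_congr' fun j => ?_
  exact exists_congr fun u => by rw [hmem]

/-- **The IP Szemeredi theorem in dense sets of zeros, and for words of gaps.** -/
theorem result :
    -- dense sets of zeros
    (∀ (k : ℕ) (δ κ : ℝ), 0 < δ → 0 < κ → ∃ (r : ℕ) (η T₀ : ℝ), 0 < η ∧ 10 ≤ T₀ ∧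
      ∀ T : ℝ, T₀ ≤ T → ∀ S : Set ℝ, S ⊆ ordinates T → δ * N₀ T ≤ S.ncard →
      ∀ g : Fin r → Fin k → ℝ, (∀ j, ∑ i, |g i j| ≤ T) →
      ∃ J : Finset (Fin r), J.Nonempty ∧
        η * N₀ T ≤ (patterns T κ S (fun j => ∑ i ∈ J, g i j)).ncard) ∧
    -- words of gaps
    (∀ (k : ℕ) (δ κ : ℝ), 0 < δ → 0 < κ → ∃ (r : ℕ) (η T₀ : ℝ), 0 < η ∧ 10 ≤ T₀ ∧
      ∀ T : ℝ, T₀ ≤ T → ∀ (l : ℕ) (E : Set (Fin l → ℝ)), δ * N₀ T ≤ (words l T E).ncard →
      ∀ b : Fin k → ℝ, (∀ j, r * |b j| ≤ T) → ∃ n : ℕ, 1 ≤ n ∧ n ≤ r ∧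
        η * N₀ T ≤ (patterns T κ (words l T E) (fun j => n * b j)).ncard) ∧
    -- all sets that are counted are finite
    (∀ T : ℝ, (ordinates T).Finite) := by
  refine ⟨dense_sets, fun k δ κ hδ hκ => ?_, ordinates_finite⟩
  obtain ⟨r, η, T₀, hη, hT₀, h⟩ := dense_sets k δ κ hδ hκ
  refine ⟨r, η, T₀, hη, hT₀, fun T hT l E hE b hb => ?_⟩
  obtain ⟨J, hJ, h1⟩ := h T hT (words l T E) (fun t ht => ht.1) hE (fun _ j => b j) (fun j => by
    rw [Finset.sum_const, Finset.card_univ, Fintype.card_fin, nsmul_eq_mul]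
    exact hb j)
  refine ⟨J.card, Finset.card_pos.2 hJ, ?_, ?_⟩
  · have := Finset.card_le_univ J
    rwa [Fintype.card_fin] at this
  · refine h1.trans (le_of_eq ?_)
    congr 3
    funext j
    rw [Finset.sum_const, nsmul_eq_mul]

end Pool.Agent.Results.MP_7eacff_nt.SzemerediForGaps
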